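import Pool.Agent.D0H67.TS.Stm

/-! # Module GMN: the curve `u ^ M = u' ^ M'` -/

set_option autoImplicit false
set_option linter.unusedSectionVars false

namespace Pool.Agent.D0H16.TS

open MvPolynomial Pool.Agent.W428.MOT Pool.Agent.TH192.MT
  Pool.Agent.D0H67.SUB Pool.Agent.D0H67.TS

section general

variable {K : Type} [Field K] {ι : Type} [Fintype ι] {R : Type} [CommRing R]

theorem chi_empty (M : Meas K R) : M.χ ι ∅ = 0 := by
  have h := M.add (ι := ι) ∅ ∅ Constr.empty Constr.empty (Set.disjoint_empty _)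
  rw [Set.union_empty] at h
  have h2 : M.χ ι ∅ + 0 = M.χ ι ∅ + M.χ ι ∅ := by rw [add_zero]; exact h
  exact (add_left_cancel h2).symm

theorem constr_iUnion (s : Finset ℕ) (A : ℕ → Set (Pt K ι)) (hA : ∀ j ∈ s, Constr (A j)) :
    Constr (⋃ j ∈ s, A j) := by
  induction s using Finset.induction_on with
  | empty => simpa using Constr.empty
  | insert j s hj ih =>
    rw [Finset.set_biUnion_insert]
    exact (hA j (Finset.mem_insert_self _ _)).union
      (ih fun i hi => hA i (Finset.mem_insert_of_mem hi))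

theorem chi_iUnion (M : Meas K R) (s : Finset ℕ) (A : ℕ → Set (Pt K ι))
    (hA : ∀ j ∈ s, Constr (A j)) (hd : ∀ i ∈ s, ∀ j ∈ s, i ≠ j → Disjoint (A i) (A j)) :
    M.χ ι (⋃ j ∈ s, A j) = ∑ j ∈ s, M.χ ι (A j) := by
  induction s using Finset.induction_on with
  | empty => simpa using chi_empty M
  | insert j s hj ih =>
    rw [Finset.set_biUnion_insert, Finset.sum_insert hj, M.add _ _ (hA j (Finset.mem_insert_self _ _))
      (constr_iUnion s A fun i hi => hA i (Finset.mem_insert_of_mem hi)) ?_,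
      ih (fun i hi => hA i (Finset.mem_insert_of_mem hi))
        (fun i hi l hl => hd i (Finset.mem_insert_of_mem hi) l (Finset.mem_insert_of_mem hl))]
    rw [Set.disjoint_iUnion₂_right]
    intro i hi
    exact hd j (Finset.mem_insert_self _ _) i (Finset.mem_insert_of_mem hi)
      (fun h => hj (h ▸ hi))

end general

theorem exists_bezout {m m' : ℕ} (hm : 0 < m) (hm' : 0 < m') (h : Nat.Coprime m m') :
    ∃ a b : ℕ, a * m' = b * m + 1 := by
  rcases Nat.lt_or_ge 1 m with h1 | h1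
  · obtain ⟨a, ha⟩ := Nat.exists_mul_mod_eq_one_of_coprime h.symm h1
    refine ⟨a, m' * a / m, ?_⟩
    have := Nat.div_add_mod (m' * a) m
    rw [ha.2] at this
    linarith [mul_comm a m', mul_comm (m' * a / m) m]
  · have : m = 1 := by omega
    subst this
    exact ⟨1, m' - 1, by omega⟩

section

variable {ρ : Type} [Fintype ρ]

/-- The parameters and the value of the function. -/
noncomputable def pc (M₀' : ℕ) (x : Pt ℂ ((ρ ⊕ Unit) ⊕ Unit)) : Pt ℂ (ρ ⊕ Unit) :=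
  Sum.elim (fun r => x (Sum.inl (Sum.inl r))) fun _ => x (Sum.inr ()) ^ M₀'

/-- one component of the curve -/
def Cj (M₀' m m' : ℕ) (ζ : ℂ) (Φ : Set (Pt ℂ (ρ ⊕ Unit))) : Set (Pt ℂ ((ρ ⊕ Unit) ⊕ Unit)) :=
  {x | x (Sum.inl (Sum.inr ())) ≠ 0 ∧ x (Sum.inr ()) ≠ 0 ∧
    x (Sum.inr ()) ^ m' = algebraMap ℂ (AlgebraicClosure ℂ) ζ * x (Sum.inl (Sum.inr ())) ^ m ∧
    pc M₀' x ∈ Φ}

theorem isPF_pc (M₀' : ℕ) (i : ρ ⊕ Unit) : IsPF (fun x : Pt ℂ ((ρ ⊕ Unit) ⊕ Unit) =>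
    pc M₀' x i) := by
  rcases i with r | u
  · exact IsPF.coord _
  · exact (IsPF.coord _).pow _

theorem constr_Cj (M₀' m m' : ℕ) (ζ : ℂ) {Φ : Set (Pt ℂ (ρ ⊕ Unit))} (hΦ : Constr Φ) :
    Constr (Cj M₀' m m' ζ Φ) := by
  refine (Constr.ne (IsPF.coord _) IsPF.zero).and ((Constr.ne (IsPF.coord _) IsPF.zero).and
    ((Constr.eq ((IsPF.coord _).pow _) ((IsPF.const ζ).mul ((IsPF.coord _).pow _))).and ?_))
  exact hΦ.preimage _ (isPF_pc M₀')

theorem constr_RS (l : ℕ) {Φ : Set (Pt ℂ (ρ ⊕ Unit))} (hΦ : Constr Φ) : Constr (RS l Φ) := by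
  refine (Constr.ne (IsPF.coord _) IsPF.zero).and ?_
  refine hΦ.preimage (fun x : Pt ℂ (ρ ⊕ Unit) =>
    (Sum.elim (fun r => x (Sum.inl r)) fun _ => x (Sum.inr ()) ^ l : Pt ℂ (ρ ⊕ Unit))) ?_
  rintro (r | u)
  · exact IsPF.coord _
  · exact (IsPF.coord _).pow _

/-- every component is a copy of `𝔾_m` -/
theorem chi_Cj {M₀' m m' g : ℕ} (hm' : 0 < m') (hg : 0 < g) (hM : M₀' = m' * g) {ζ β : ℂ}
    (hζ : ζ ^ g = 1) (hβ : β ^ m' = ζ) {a b : ℕ} (hab : a * m' = b * m + 1)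
    {Φ : Set (Pt ℂ (ρ ⊕ Unit))} (hΦ : Constr Φ) {R : Type} [CommRing R] (M : Meas ℂ R) :
    M.χ ((ρ ⊕ Unit) ⊕ Unit) (Cj M₀' m m' ζ Φ) = M.χ (ρ ⊕ Unit) (RS (m * M₀') Φ) := by
  set B : AlgebraicClosure ℂ := algebraMap ℂ _ β with hB
  set Z : AlgebraicClosure ℂ := algebraMap ℂ _ ζ with hZ
  have hZg : Z ^ g = 1 := by rw [hZ, ← map_pow, hζ, map_one]
  have hBm : B ^ m' = Z := by rw [hB, hZ, ← map_pow, hβ]
  have hZ0 : Z ≠ 0 := by
    intro h
    rw [h, zero_pow hg.ne'] at hZg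
    exact zero_ne_one hZg
  have hB0 : B ≠ 0 := by
    intro h
    rw [h, zero_pow hm'.ne'] at hBm
    exact hZ0 hBm.symm
  -- the key computations
  have key1 : ∀ u u' : AlgebraicClosure ℂ, u ≠ 0 → u' ≠ 0 → u' ^ m' = Z * u ^ m →
      (B ^ b * u ^ a / u' ^ b) ^ m' = u := by
    intro u u' hu hu' h
    have h1 : (B ^ b * u ^ a / u' ^ b) ^ m' = (B ^ m') ^ b * u ^ (a * m') / (u' ^ m') ^ b := by
      rw [div_pow, mul_pow]
      ring
    rw [h1, hBm, h, hab, mul_pow]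
    have h2 : Z ^ b ≠ 0 := pow_ne_zero _ hZ0
    have h3 : (u ^ m) ^ b ≠ 0 := pow_ne_zero _ (pow_ne_zero _ hu)
    field_simp
    ring
  have key2 : ∀ u u' : AlgebraicClosure ℂ, u ≠ 0 → u' ≠ 0 → u' ^ m' = Z * u ^ m →
      B * (B ^ b * u ^ a / u' ^ b) ^ m = u' := by
    intro u u' hu hu' h
    have h0 : u' ^ (b * m) ≠ 0 := pow_ne_zero _ hu'
    have h1 : B * (B ^ b * u ^ a / u' ^ b) ^ m = B ^ (b * m + 1) * u ^ (a * m) / u' ^ (b * m) := by
      rw [div_pow, mul_pow]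
      ring
    rw [h1, ← hab]
    rw [div_eq_iff h0]
    calc B ^ (a * m') * u ^ (a * m) = ((B ^ m') * u ^ m) ^ a := by ring
      _ = (u' ^ m') ^ a := by rw [hBm, h]
      _ = u' ^ (a * m') := by ring
      _ = u' ^ (b * m + 1) := by rw [hab]
      _ = u' * u' ^ (b * m) := by ring
  have key3 : ∀ w : AlgebraicClosure ℂ, w ≠ 0 → B ^ b * (w ^ m') ^ a / (B * w ^ m) ^ b = w := by
    intro w hw
    have h0 : (B * w ^ m) ^ b ≠ 0 := pow_ne_zero _ (mul_ne_zero hB0 (pow_ne_zero _ hw))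
    rw [div_eq_iff h0]
    calc B ^ b * (w ^ m') ^ a = B ^ b * w ^ (a * m') := by ring
      _ = B ^ b * w ^ (b * m + 1) := by rw [hab]
      _ = w * (B * w ^ m) ^ b := by ring
  refine M.iso _ _ (constr_Cj M₀' m m' ζ hΦ) (constr_RS _ hΦ)
    (fun x => Sum.elim (fun r => x (Sum.inl (Sum.inl r)))
      fun _ => B ^ b * x (Sum.inl (Sum.inr ())) ^ a / x (Sum.inr ()) ^ b)
    (fun w => Sum.elim (Sum.elim (fun r => w (Sum.inl r)) fun _ => w (Sum.inr ()) ^ m')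
      fun _ => B * w (Sum.inr ()) ^ m) ?_ ?_ ?_ ?_ ?_ ?_
  · rintro (r | u)
    · exact (IsPF.coord _).isRF _
    · refine IsRF.div ((((IsPF.const β).pow b).mul ((IsPF.coord _).pow a)).isRF _)
        (((IsPF.coord _).pow b).isRF _) ?_
      intro z hz
      exact pow_ne_zero _ hz.2.1
  · apply regularOn_poly
    rintro ((r | u) | v)
    · exact IsPF.coord _
    · exact (IsPF.coord _).pow _
    · exact (IsPF.const β).mul ((IsPF.coord _).pow _)
  · rintro x ⟨hu, hu', h, hx⟩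
    have e1 := key1 _ _ hu hu' h
    have e2 := key2 _ _ hu hu' h
    refine ⟨?_, ?_⟩
    · intro h0
      simp only [Sum.elim_inr] at h0
      rw [h0, zero_pow hm'.ne'] at e1
      exact hu e1.symm
    · have : (Sum.elim (fun r => x (Sum.inl (Sum.inl r)))
          fun _ => (B ^ b * x (Sum.inl (Sum.inr ())) ^ a / x (Sum.inr ()) ^ b) ^ (m * M₀') :
            Pt ℂ (ρ ⊕ Unit)) = pc M₀' x := by
        funext i
        rcases i with r | u
        · rfl
        · simp only [pc, Sum.elim_inr]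
          have e3 : (B ^ b * x (Sum.inl (Sum.inr ())) ^ a / x (Sum.inr ()) ^ b) ^ m =
              x (Sum.inr ()) / B := by
            rw [eq_div_iff hB0, mul_comm]
            exact e2
          rw [pow_mul, e3, div_pow, hM, pow_mul B, hBm, hZg, div_one]
      exact this ▸ hx
  · rintro w ⟨hw, hx⟩
    have hw' : w (Sum.inr ()) ≠ 0 := hw
    refine ⟨pow_ne_zero _ hw', mul_ne_zero hB0 (pow_ne_zero _ hw'), ?_, ?_⟩
    · simp only [Sum.elim_inr, Sum.elim_inl]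
      rw [mul_pow, hBm]
      ring
    · have : pc M₀' (Sum.elim (Sum.elim (fun r => w (Sum.inl r)) fun _ => w (Sum.inr ()) ^ m')
          fun _ => B * w (Sum.inr ()) ^ m : Pt ℂ ((ρ ⊕ Unit) ⊕ Unit)) =
          (Sum.elim (fun r => w (Sum.inl r)) fun _ => w (Sum.inr ()) ^ (m * M₀') :
            Pt ℂ (ρ ⊕ Unit)) := by
        funext i
        rcases i with r | u
        · rfl
        · simp only [pc, Sum.elim_inr]
          rw [mul_pow, hM, pow_mul B, hBm, hZg, one_mul, ← pow_mul]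
      exact this ▸ hx
  · rintro x ⟨hu, hu', h, hx⟩
    funext i
    rcases i with (r | u) | v
    · rfl
    · exact key1 _ _ hu hu' h
    · exact key2 _ _ hu hu' h
  · rintro w ⟨hw, hx⟩
    funext i
    rcases i with r | u
    · rfl
    · exact key3 _ hw

end

/-- GMN -/
theorem t_GMN : S_GMN := by
  intro M₀ M₀' h0 h0' ρ _ Φ hΦ
  obtain ⟨m, m', hcop, hM, hM'⟩ := Nat.exists_coprime M₀ M₀'
  set g := Nat.gcd M₀ M₀' with hgdef
  have hg : 0 < g := Nat.gcd_pos_of_pos_left _ h0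
  have hm : 0 < m := by
    rcases Nat.eq_zero_or_pos m with h | h
    · rw [h, zero_mul] at hM; omega
    · exact h
  have hm' : 0 < m' := by
    rcases Nat.eq_zero_or_pos m' with h | h
    · rw [h, zero_mul] at hM'; omega
    · exact h
  obtain ⟨a, b, hab⟩ := exists_bezout hm hm' hcop
  have hlcm : Nat.lcm M₀ M₀' = m * M₀' := by
    have h1 := Nat.gcd_mul_lcm M₀ M₀'
    rw [← hgdef] at h1
    have h2 : g * Nat.lcm M₀ M₀' = g * (m * M₀') := by
      rw [h1]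
      conv_lhs => rw [hM]
      ring
    exact Nat.eq_of_mul_eq_mul_left hg h2
  let ζ : ℂ := Complex.exp (2 * Real.pi * Complex.I / g)
  have hζ : IsPrimitiveRoot ζ g := Complex.isPrimitiveRoot_exp g hg.ne'
  have : NeZero g := ⟨hg.ne'⟩
  have hZ : IsPrimitiveRoot (algebraMap ℂ (AlgebraicClosure ℂ) ζ) g :=
    hζ.map_of_injective (algebraMap ℂ (AlgebraicClosure ℂ)).injective
  have hset : {x : Pt ℂ ((ρ ⊕ Unit) ⊕ Unit) | x (Sum.inl (Sum.inr ())) ≠ 0 ∧ x (Sum.inr ()) ≠ 0 ∧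
      x (Sum.inr ()) ^ M₀' = x (Sum.inl (Sum.inr ())) ^ M₀ ∧
      (Sum.elim (fun r => x (Sum.inl (Sum.inl r))) fun _ => x (Sum.inr ()) ^ M₀' :
        Pt ℂ (ρ ⊕ Unit)) ∈ Φ} = ⋃ j ∈ Finset.range g, Cj M₀' m m' (ζ ^ j) Φ := by
    ext x
    simp only [Set.mem_ofPred_eq, Set.mem_iUnion, Finset.mem_range, exists_prop]
    constructor
    · rintro ⟨hu, hu', h, hx⟩
      have h1 : (x (Sum.inr ()) ^ m' / x (Sum.inl (Sum.inr ())) ^ m) ^ g = 1 := by
        rw [div_pow, ← pow_mul, ← pow_mul, ← hM, ← hM', h, div_self (pow_ne_zero _ hu)]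
      obtain ⟨j, hj, hj'⟩ := hZ.eq_pow_of_pow_eq_one h1
      refine ⟨j, hj, hu, hu', ?_, hx⟩
      rw [map_pow, hj', div_mul_cancel₀ _ (pow_ne_zero _ hu)]
    · rintro ⟨j, hj, hu, hu', h, hx⟩
      refine ⟨hu, hu', ?_, hx⟩
      calc x (Sum.inr ()) ^ M₀' = (x (Sum.inr ()) ^ m') ^ g := by rw [← pow_mul, ← hM']
        _ = x (Sum.inl (Sum.inr ())) ^ M₀ := by
          rw [h, mul_pow, map_pow, ← pow_mul, mul_comm j g, pow_mul, hZ.pow_eq_one, one_pow,
            one_mul, ← pow_mul, ← hM]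
  rw [hset]
  have hC : ∀ j ∈ Finset.range g, Constr (Cj (ρ := ρ) M₀' m m' (ζ ^ j) Φ) :=
    fun j _ => constr_Cj M₀' m m' (ζ ^ j) hΦ
  refine ⟨constr_iUnion _ _ hC, ?_⟩
  intro R _ M
  rw [chi_iUnion M _ _ hC ?_]
  · have : ∀ j ∈ Finset.range g, M.χ ((ρ ⊕ Unit) ⊕ Unit) (Cj M₀' m m' (ζ ^ j) Φ) =
        M.χ (ρ ⊕ Unit) (RS (Nat.lcm M₀ M₀') Φ) := by
      intro j _
      obtain ⟨β, hβ⟩ := IsAlgClosed.exists_pow_nat_eq (ζ ^ j) hm'
      have hζj : (ζ ^ j) ^ g = 1 := by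
        rw [← pow_mul, mul_comm, pow_mul, hζ.pow_eq_one, one_pow]
      rw [hlcm]
      exact chi_Cj hm' hg hM' hζj hβ hab hΦ M
    rw [Finset.sum_congr rfl this, Finset.sum_const, Finset.card_range, nsmul_eq_mul]
  · intro i hi j hj hij
    rw [Set.disjoint_left]
    rintro x ⟨hu, hu', h1, _⟩ ⟨_, _, h2, _⟩
    apply hij
    have h3 : (algebraMap ℂ (AlgebraicClosure ℂ) (ζ ^ i)) =
        algebraMap ℂ (AlgebraicClosure ℂ) (ζ ^ j) :=
      mul_right_cancel₀ (pow_ne_zero m hu) (h1.symm.trans h2)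
    rw [map_pow, map_pow] at h3
    exact hZ.pow_inj (Finset.mem_range.1 hi) (Finset.mem_range.1 hj) h3

end Pool.Agent.D0H16.TS
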