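import Pool.Agent.D0H16.TS.Gmn

/-! # Module SUMN: `Nice` for sums of ideals in disjoint variables -/

set_option autoImplicit false
set_option linter.unusedSectionVars false

namespace Pool.Agent.D0H16.TS

open MvPolynomial Pool.Agent.W428.MOT Pool.Agent.TH192.MT
  Pool.Agent.D0H67.SUB Pool.Agent.D0H67.TS

section tools

variable {σ : Type}

theorem pf_cst {ι : Type} (a : AlgebraicClosure ℂ) : IsPF (fun _ : Pt ℂ ι => a) := by
  obtain ⟨b, rfl⟩ := (IsAlgClosed.algebraMap_bijective_of_isIntegral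
    (k := ℂ) (K := AlgebraicClosure ℂ)).2 a
  exact IsPF.const b

theorem pa_ar' {N : ℕ} (i : σ) : IsPA (fun z : Pt ℂ (σ × Fin (N + 1)) => ar z i) := by
  intro j
  simp only [ar, PowerSeries.coeff_mk]
  split_ifs with h
  · exact IsPF.coord _
  · exact IsPF.zero

theorem pa_aeval' {N : ℕ} (f : MvPolynomial σ ℂ) :
    IsPA (fun z : Pt ℂ (σ × Fin (N + 1)) => aeval (ar z) f) := by
  induction f using MvPolynomial.induction_on with
  | C a =>
    simp only [MvPolynomial.algHom_C, PowerSeries.algebraMap_apply]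
    exact IsPA.C (IsPF.const a)
  | add p q hp hq =>
    simp only [map_add]
    exact hp.add hq
  | mul_X p i hp =>
    simp only [map_mul, MvPolynomial.aeval_X]
    exact hp.mul (pa_ar' i)

/-- relabelling of the coordinates -/
theorem relabel {ι κ : Type} [Fintype ι] [Fintype κ] (e : ι ≃ κ) {S : Set (Pt ℂ κ)}
    (hS : Constr S) : Constr {x : Pt ℂ ι | (fun q => x (e.symm q)) ∈ S} ∧
      ∀ {R : Type} [CommRing R] (M : Meas ℂ R),
        M.χ ι {x : Pt ℂ ι | (fun q => x (e.symm q)) ∈ S} = M.χ κ S := by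
  have h1 : Constr {x : Pt ℂ ι | (fun q => x (e.symm q)) ∈ S} :=
    hS.preimage (fun x : Pt ℂ ι => fun q => x (e.symm q)) fun q => IsPF.coord _
  refine ⟨h1, fun M => M.iso _ _ h1 hS (fun x q => x (e.symm q)) (fun x q => x (e q))
    (regularOn_poly (fun q => IsPF.coord _) _) (regularOn_poly (fun q => IsPF.coord _) _)
    (fun x hx => hx) ?_ ?_ ?_⟩
  · intro x hx
    have h2 : (fun q => x (e (e.symm q))) = x := by
      funext q
      rw [e.apply_symm_apply]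
    change (fun q => x (e (e.symm q))) ∈ S
    rw [h2]
    exact hx
  · intro x _
    funext q
    change x (e.symm (e q)) = x q
    rw [e.symm_apply_apply]
  · intro x _
    funext q
    change x (e (e.symm q)) = x q
    rw [e.apply_symm_apply]

/-- the coefficients of `f(a)` up to the order `M - 1` depend on those of `a` -/
theorem coeff_congr (a b : σ → PowerSeries (AlgebraicClosure ℂ)) (M : ℕ)
    (h : ∀ i, ∀ k < M, PowerSeries.coeff k (a i) = PowerSeries.coeff k (b i))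
    (f : MvPolynomial σ ℂ) : ∀ k < M,
      PowerSeries.coeff k (aeval a f) = PowerSeries.coeff k (aeval b f) := by
  have h1 : (PowerSeries.X : PowerSeries (AlgebraicClosure ℂ)) ^ M ∣ aeval a f - aeval b f := by
    induction f using MvPolynomial.induction_on with
    | C c =>
      simp only [MvPolynomial.algHom_C, sub_self]
      exact dvd_zero _
    | add p q hp hq =>
      have h2 : aeval a (p + q) - aeval b (p + q) =
          (aeval a p - aeval b p) + (aeval a q - aeval b q) := by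
        rw [map_add, map_add]; ring
      rw [h2]
      exact dvd_add hp hq
    | mul_X p i hp =>
      have h2 : aeval a (p * X i) - aeval b (p * X i) =
          (aeval a p - aeval b p) * a i + aeval b p * (a i - b i) := by
        rw [map_mul, map_mul, aeval_X, aeval_X]; ring
      rw [h2]
      refine dvd_add (hp.mul_right _) (Dvd.dvd.mul_left ?_ _)
      rw [PowerSeries.X_pow_dvd_iff]
      intro m hm
      rw [map_sub, h i m hm, sub_self]
  intro k hk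
  rw [PowerSeries.X_pow_dvd_iff] at h1
  have h2 := h1 k hk
  rw [map_sub] at h2
  exact sub_eq_zero.1 h2

/-- substitutions commute with polynomials -/
theorem hom_aeval (E : PowerSeries (AlgebraicClosure ℂ) →+* PowerSeries (AlgebraicClosure ℂ))
    (hE : ∀ c, E (PowerSeries.C c) = PowerSeries.C c)
    (a : σ → PowerSeries (AlgebraicClosure ℂ)) (f : MvPolynomial σ ℂ) :
    E (aeval a f) = aeval (fun i => E (a i)) f := by
  induction f using MvPolynomial.induction_on with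
  | C c =>
    simp only [MvPolynomial.algHom_C, PowerSeries.algebraMap_apply]
    exact hE _
  | add p q hp hq => rw [map_add, map_add, map_add, hp, hq]
  | mul_X p i hp => rw [map_mul, map_mul, map_mul, hp, aeval_X, aeval_X]

theorem ar_coeff {N : ℕ} (z : Pt ℂ (σ × Fin (N + 1))) (i : σ) (k : ℕ) (hk : k < N + 1) :
    PowerSeries.coeff k (ar z i) = z (i, ⟨k, hk⟩) := by
  rw [ar, PowerSeries.coeff_mk, dif_pos hk]

/-- the reparametrised jet `z(μ t ^ s)` -/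
theorem reparam {J : Type} (g : J → MvPolynomial σ ℂ) (p : Pt ℂ σ)
    (y : J → AlgebraicClosure ℂ) {N N' s : ℕ} (hs : s ≠ 0) (hN : N' = s * N)
    (μ c : AlgebraicClosure ℂ) {z : Pt ℂ (σ × Fin (N + 1))} (hz : z ∈ JetC g p y N c) :
    ∃ z' : Pt ℂ (σ × Fin (N' + 1)), z' ∈ JetC g p y N' (μ ^ N' * c) := by
  let E : PowerSeries (AlgebraicClosure ℂ) →+* PowerSeries (AlgebraicClosure ℂ) :=
    (PowerSeries.rescale μ).comp
      (PowerSeries.expand s hs : PowerSeries (AlgebraicClosure ℂ) →ₐ[AlgebraicClosure ℂ]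
        PowerSeries (AlgebraicClosure ℂ)).toRingHom
  have hEc : ∀ (k : ℕ) (F : PowerSeries (AlgebraicClosure ℂ)), PowerSeries.coeff k (E F) =
      μ ^ k * if s ∣ k then PowerSeries.coeff (k / s) F else 0 := by
    intro k F
    change PowerSeries.coeff k (PowerSeries.rescale μ (PowerSeries.expand s hs F)) = _
    rw [PowerSeries.coeff_rescale, PowerSeries.coeff_expand]
  have hEC : ∀ c, E (PowerSeries.C c) = PowerSeries.C c := by
    intro c
    change PowerSeries.rescale μ (PowerSeries.expand s hs (PowerSeries.C c)) = _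
    rw [PowerSeries.expand_C]
    ext n
    rw [PowerSeries.coeff_rescale, PowerSeries.coeff_C]
    split_ifs with h
    · rw [h, pow_zero, one_mul]
    · rw [mul_zero]
  let z' : Pt ℂ (σ × Fin (N' + 1)) := fun q => PowerSeries.coeff (q.2 : ℕ) (E (ar z q.1))
  have hco : ∀ (f : MvPolynomial σ ℂ), ∀ k < N' + 1,
      PowerSeries.coeff k (aeval (ar z') f) = PowerSeries.coeff k (E (aeval (ar z) f)) := by
    intro f k hk
    rw [hom_aeval E hEC]
    refine coeff_congr _ _ (N' + 1) ?_ f k hk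
    intro i k hk
    rw [ar_coeff z' i k hk]
  refine ⟨z', ?_, ?_, ?_⟩
  · intro i
    change PowerSeries.coeff ((0 : Fin (N' + 1)) : ℕ) (E (ar z i)) = p i
    rw [Fin.val_zero, hEc, pow_zero, one_mul, if_pos (dvd_zero _), Nat.zero_div,
      ar_coeff z i 0 (Nat.succ_pos _)]
    exact hz.1 i
  · intro j k hk
    rw [hco _ k (by omega), hEc]
    by_cases hd : s ∣ k
    · obtain ⟨m, rfl⟩ := hd
      rw [if_pos (dvd_mul_right _ _), Nat.mul_div_cancel_left _ (Nat.pos_of_ne_zero hs),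
        hz.2.1 j m (by rw [hN] at hk; exact lt_of_mul_lt_mul_left hk (Nat.zero_le _)), mul_zero]
    · rw [if_neg hd, mul_zero]
  · intro j
    rw [hco _ N' (Nat.lt_succ_self _), hEc, if_pos (hN ▸ dvd_mul_right _ _)]
    have h1 : N' / s = N := by rw [hN, Nat.mul_div_cancel_left _ (Nat.pos_of_ne_zero hs)]
    rw [h1, hz.2.2 j, mul_assoc]

end tools

section sum

variable {σ τ J J' : Type}

theorem aP_sum (p : σ → ℂ) (p' : τ → ℂ) : aP (Sum.elim p p') = Sum.elim (aP p) (aP p') := by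
  funext i
  rcases i with i | i <;> rfl

theorem aeval_inl {N : ℕ} (z : Pt ℂ ((σ ⊕ τ) × Fin (N + 1))) (f : MvPolynomial σ ℂ) :
    aeval (ar z) (rename Sum.inl f) =
      aeval (ar (fun q : σ × Fin (N + 1) => z (Sum.inl q.1, q.2))) f := by
  rw [aeval_rename]
  rfl

theorem aeval_inr {N : ℕ} (z : Pt ℂ ((σ ⊕ τ) × Fin (N + 1))) (f : MvPolynomial τ ℂ) :
    aeval (ar z) (rename Sum.inr f) =
      aeval (ar (fun q : τ × Fin (N + 1) => z (Sum.inr q.1, q.2))) f := by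
  rw [aeval_rename]
  rfl

/-- jets of the sum are pairs of jets -/
theorem jetC_sum (g : J → MvPolynomial σ ℂ) (g' : J' → MvPolynomial τ ℂ) (p : Pt ℂ σ)
    (p' : Pt ℂ τ) (y : J → AlgebraicClosure ℂ) (y' : J' → AlgebraicClosure ℂ) (N : ℕ)
    (c : AlgebraicClosure ℂ) (z : Pt ℂ ((σ ⊕ τ) × Fin (N + 1))) :
    z ∈ JetC (sumG g g') (Sum.elim p p') (Sum.elim y y') N c ↔
      (fun q : σ × Fin (N + 1) => z (Sum.inl q.1, q.2)) ∈ JetC g p y N c ∧
      (fun q : τ × Fin (N + 1) => z (Sum.inr q.1, q.2)) ∈ JetC g' p' y' N c := by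
  constructor
  · rintro ⟨h1, h2, h3⟩
    refine ⟨⟨fun i => h1 (Sum.inl i), fun j k hk => ?_, fun j => ?_⟩,
      ⟨fun i => h1 (Sum.inr i), fun j k hk => ?_, fun j => ?_⟩⟩
    · rw [← aeval_inl]
      exact h2 (Sum.inl j) k hk
    · rw [← aeval_inl]
      exact h3 (Sum.inl j)
    · rw [← aeval_inr]
      exact h2 (Sum.inr j) k hk
    · rw [← aeval_inr]
      exact h3 (Sum.inr j)
  · rintro ⟨⟨h1, h2, h3⟩, ⟨h1', h2', h3'⟩⟩
    refine ⟨?_, ?_, ?_⟩
    · rintro (i | i)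
      · exact h1 i
      · exact h1' i
    · rintro (j | j) k hk
      · change PowerSeries.coeff k (aeval (ar z) (rename Sum.inl (g j))) = 0
        rw [aeval_inl]
        exact h2 j k hk
      · change PowerSeries.coeff k (aeval (ar z) (rename Sum.inr (g' j))) = 0
        rw [aeval_inr]
        exact h2' j k hk
    · rintro (j | j)
      · change PowerSeries.coeff N (aeval (ar z) (rename Sum.inl (g j))) = c * y j
        rw [aeval_inl]
        exact h3 j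
      · change PowerSeries.coeff N (aeval (ar z) (rename Sum.inr (g' j))) = c * y' j
        rw [aeval_inr]
        exact h3' j

theorem jetE_iff {J : Type} (g : J → MvPolynomial σ ℂ) (p : Pt ℂ σ)
    (y : J → AlgebraicClosure ℂ) (N : ℕ) (z : Pt ℂ (σ × Fin (N + 1))) :
    z ∈ JetE g p y N ↔ ∃ c : AlgebraicClosure ℂ, c ≠ 0 ∧ z ∈ JetC g p y N c := by
  constructor
  · rintro ⟨h1, h2, c, hc, h3⟩
    exact ⟨c, hc, h1, h2, h3⟩
  · rintro ⟨c, hc, h1, h2, h3⟩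
    exact ⟨h1, h2, c, hc, h3⟩

variable {ρ : Type}

/-- the parameters of the first step -/
def P1 (g' : J' → MvPolynomial τ ℂ) (p' : Pt ℂ τ) (y' : J' → AlgebraicClosure ℂ) (N : ℕ)
    (Φ : Set (Pt ℂ (ρ ⊕ Unit))) : Set (Pt ℂ ((ρ ⊕ (τ × Fin (N + 1))) ⊕ Unit)) :=
  {x | (fun q => x (Sum.inl (Sum.inr q))) ∈ JetC g' p' y' N (x (Sum.inr ())) ∧
    (Sum.elim (fun r => x (Sum.inl (Sum.inl r))) fun _ => x (Sum.inr ()) : Pt ℂ (ρ ⊕ Unit)) ∈ Φ}

theorem constr_P1 [Finite τ] [Finite J'] (g' : J' → MvPolynomial τ ℂ) (p' : Pt ℂ τ)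
    (y' : J' → AlgebraicClosure ℂ) (N : ℕ) {Φ : Set (Pt ℂ (ρ ⊕ Unit))} (hΦ : Constr Φ) :
    Constr (P1 g' p' y' N Φ) := by
  refine Constr.and (Constr.and (Constr.all fun i => Constr.eq (IsPF.coord _) (pf_cst _))
    (Constr.and (Constr.all fun j => Constr.allLt N fun k _ => Constr.eqz ?_)
      (Constr.all fun j => Constr.eq ?_ ((IsPF.coord _).mul (pf_cst _))))) ?_
  · exact (pa_aeval' (g' j) k).comp
      (fun x : Pt ℂ ((ρ ⊕ (τ × Fin (N + 1))) ⊕ Unit) => fun q => x (Sum.inl (Sum.inr q)))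
      fun q => IsPF.coord _
  · exact (pa_aeval' (g' j) N).comp
      (fun x : Pt ℂ ((ρ ⊕ (τ × Fin (N + 1))) ⊕ Unit) => fun q => x (Sum.inl (Sum.inr q)))
      fun q => IsPF.coord _
  · refine hΦ.preimage (fun x : Pt ℂ ((ρ ⊕ (τ × Fin (N + 1))) ⊕ Unit) =>
      (Sum.elim (fun r => x (Sum.inl (Sum.inl r))) fun _ => x (Sum.inr ()) : Pt ℂ (ρ ⊕ Unit))) ?_
    rintro (r | u)
    · exact IsPF.coord _
    · exact IsPF.coord _

/-- the parameters of the second step -/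
def P2 (M₀ : ℕ) (Φ : Set (Pt ℂ (ρ ⊕ Unit))) : Set (Pt ℂ ((ρ ⊕ Unit) ⊕ Unit)) :=
  {x | x (Sum.inl (Sum.inr ())) ≠ 0 ∧ x (Sum.inr ()) = x (Sum.inl (Sum.inr ())) ^ M₀ ∧
    (Sum.elim (fun r => x (Sum.inl (Sum.inl r))) fun _ => x (Sum.inr ()) : Pt ℂ (ρ ⊕ Unit)) ∈ Φ}

theorem constr_P2 (M₀ : ℕ) {Φ : Set (Pt ℂ (ρ ⊕ Unit))} (hΦ : Constr Φ) :
    Constr (P2 M₀ Φ) := by
  refine Constr.and (Constr.ne (IsPF.coord _) IsPF.zero)
    (Constr.and (Constr.eq (IsPF.coord _) ((IsPF.coord _).pow _)) ?_)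
  refine hΦ.preimage (fun x : Pt ℂ ((ρ ⊕ Unit) ⊕ Unit) =>
    (Sum.elim (fun r => x (Sum.inl (Sum.inl r))) fun _ => x (Sum.inr ()) : Pt ℂ (ρ ⊕ Unit))) ?_
  rintro (r | u)
  · exact IsPF.coord _
  · exact IsPF.coord _

/-- the first relabelling -/
def e1 (ρ σ τ : Type) (N : ℕ) : ρ ⊕ ((σ ⊕ τ) × Fin (N + 1)) ≃
    (ρ ⊕ (τ × Fin (N + 1))) ⊕ (σ × Fin (N + 1)) where
  toFun
    | Sum.inl r => Sum.inl (Sum.inl r)
    | Sum.inr (Sum.inl i, k) => Sum.inr (i, k)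
    | Sum.inr (Sum.inr i, k) => Sum.inl (Sum.inr (i, k))
  invFun
    | Sum.inl (Sum.inl r) => Sum.inl r
    | Sum.inl (Sum.inr q) => Sum.inr (Sum.inr q.1, q.2)
    | Sum.inr q => Sum.inr (Sum.inl q.1, q.2)
  left_inv := by rintro (r | ⟨i | i, k⟩) <;> rfl
  right_inv := by rintro ((r | ⟨i, k⟩) | ⟨i, k⟩) <;> rfl

/-- the second relabelling -/
def e2 (ρ τ : Type) (N : ℕ) : (ρ ⊕ (τ × Fin (N + 1))) ⊕ Unit ≃
    (ρ ⊕ Unit) ⊕ (τ × Fin (N + 1)) where
  toFun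
    | Sum.inl (Sum.inl r) => Sum.inl (Sum.inl r)
    | Sum.inl (Sum.inr q) => Sum.inr q
    | Sum.inr u => Sum.inl (Sum.inr u)
  invFun
    | Sum.inl (Sum.inl r) => Sum.inl (Sum.inl r)
    | Sum.inl (Sum.inr u) => Sum.inr u
    | Sum.inr q => Sum.inl (Sum.inr q)
  left_inv := by rintro ((r | q) | u) <;> rfl
  right_inv := by rintro ((r | u) | q) <;> rfl

theorem set1 (g : J → MvPolynomial σ ℂ) (g' : J' → MvPolynomial τ ℂ) (p : Pt ℂ σ)
    (p' : Pt ℂ τ) (y : J → AlgebraicClosure ℂ) (y' : J' → AlgebraicClosure ℂ) (N : ℕ)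
    (Φ : Set (Pt ℂ (ρ ⊕ Unit))) :
    LS (sumG g g') (Sum.elim p p') (Sum.elim y y') N Φ =
      {x | (fun q => x ((e1 ρ σ τ N).symm q)) ∈ LS g p y N (P1 g' p' y' N Φ)} := by
  ext x
  constructor
  · rintro ⟨c, hc, h, hΦ⟩
    rw [jetC_sum] at h
    exact ⟨c, hc, h.1, h.2, hΦ⟩
  · rintro ⟨c, hc, h, h', hΦ⟩
    refine ⟨c, hc, ?_, hΦ⟩
    rw [jetC_sum]
    exact ⟨h, h'⟩

theorem set2 (g' : J' → MvPolynomial τ ℂ) (p' : Pt ℂ τ) (y' : J' → AlgebraicClosure ℂ)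
    (M₀ N : ℕ) (Φ : Set (Pt ℂ (ρ ⊕ Unit))) :
    RS M₀ (P1 g' p' y' N Φ) =
      {x | (fun q => x ((e2 ρ τ N).symm q)) ∈ LS g' p' y' N (P2 M₀ Φ)} := by
  ext x
  constructor
  · rintro ⟨hu, h, hΦ⟩
    exact ⟨x (Sum.inr ()) ^ M₀, pow_ne_zero _ hu, h, hu, rfl, hΦ⟩
  · rintro ⟨c, hc, h, hu, h', hΦ⟩
    have h'' : c = x (Sum.inr ()) ^ M₀ := h'
    subst h''
    exact ⟨hu, h, hΦ⟩

theorem set3 (M₀ M₀' : ℕ) (Φ : Set (Pt ℂ (ρ ⊕ Unit))) :
    RS M₀' (P2 M₀ Φ) = {x : Pt ℂ ((ρ ⊕ Unit) ⊕ Unit) | x (Sum.inl (Sum.inr ())) ≠ 0 ∧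
      x (Sum.inr ()) ≠ 0 ∧ x (Sum.inr ()) ^ M₀' = x (Sum.inl (Sum.inr ())) ^ M₀ ∧
      (Sum.elim (fun r => x (Sum.inl (Sum.inl r))) fun _ => x (Sum.inr ()) ^ M₀' :
        Pt ℂ (ρ ⊕ Unit)) ∈ Φ} := by
  ext x
  constructor
  · rintro ⟨hu', hu, h, hΦ⟩
    exact ⟨hu, hu', h, hΦ⟩
  · rintro ⟨hu, hu', h, hΦ⟩
    exact ⟨hu', hu, h, hΦ⟩

end sum

/-- SUMN -/
theorem t_SUMN : S_GMN → S_SUMN := by
  intro hG σ τ J J' _ _ _ _ g g' p p' y y' M₀ k M₀' k' ⟨hy, hM, hk, ⟨N₁, hN₁, z₁, hz₁⟩, hN⟩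
    ⟨hy', hM', hk', ⟨N₂, hN₂, z₂, hz₂⟩, hN'⟩
  refine ⟨?_, Nat.lcm_pos hM hM', Nat.mul_pos (Nat.mul_pos hk hk') (Nat.gcd_pos_of_pos_left _ hM),
    ?_, ?_⟩
  · intro h
    apply hy
    funext j
    exact congrFun h (Sum.inl j)
  · -- a jet
    rw [jetE_iff] at hz₁ hz₂
    obtain ⟨c₁, hc₁, h₁⟩ := hz₁
    obtain ⟨c₂, hc₂, h₂⟩ := hz₂
    have hpos : 0 < N₂ * N₁ := Nat.mul_pos hN₂ hN₁
    obtain ⟨μ, hμ⟩ := IsAlgClosed.exists_pow_nat_eq (c₁ / c₂) hpos
    obtain ⟨w₁, hw₁⟩ := reparam g (aP p) (aP y) (N' := N₂ * N₁) hN₂.ne' rfl 1 c₁ h₁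
    obtain ⟨w₂, hw₂⟩ := reparam g' (aP p') (aP y') (N' := N₂ * N₁) hN₁.ne' (mul_comm _ _) μ c₂ h₂
    rw [one_pow, one_mul] at hw₁
    rw [hμ, div_mul_cancel₀ _ hc₂] at hw₂
    refine ⟨N₂ * N₁, hpos, fun q => Sum.elim (fun i => w₁ (i, q.2)) (fun i => w₂ (i, q.2)) q.1, ?_⟩
    rw [jetE_iff]
    refine ⟨c₁, hc₁, ?_⟩
    rw [aP_sum, show aP (Sum.elim y y') = Sum.elim (aP y) (aP y') from aP_sum y y', jetC_sum]
    exact ⟨hw₁, hw₂⟩
  · intro N hNpos
    have hpe : aP (Sum.elim p p') = Sum.elim (aP p) (aP p') := aP_sum p p'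
    have hye : aP (Sum.elim y y') = Sum.elim (aP y) (aP y') := aP_sum y y'
    constructor
    · intro hd
      have hd1 : M₀ ∣ N := (Nat.dvd_lcm_left _ _).trans hd
      have hd2 : M₀' ∣ N := (Nat.dvd_lcm_right _ _).trans hd
      obtain ⟨m, hm⟩ := (hN N hNpos).1 hd1
      obtain ⟨m', hm'⟩ := (hN' N hNpos).1 hd2
      refine ⟨m + m', ?_⟩
      intro ρ _ Φ hΦ
      have hP1 : Constr (P1 g' (aP p') (aP y') N Φ) := constr_P1 g' _ _ N hΦ
      have hP2 : Constr (P2 M₀ Φ) := constr_P2 M₀ hΦ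
      obtain ⟨hL1, hχ1⟩ := hm (P1 g' (aP p') (aP y') N Φ) hP1
      obtain ⟨hL2, hχ2⟩ := hm' (P2 M₀ Φ) hP2
      obtain ⟨hG1, hG2⟩ := hG M₀ M₀' hM hM' Φ hΦ
      rw [hpe, hye, set1]
      obtain ⟨hR1, hR1'⟩ := relabel (e1 ρ σ τ N) hL1
      refine ⟨hR1, ?_⟩
      intro R _ M v hv
      rw [hR1' M, hχ1 M v hv, set2]
      obtain ⟨hR2, hR2'⟩ := relabel (e2 ρ τ N) hL2
      rw [hR2' M, hχ2 M v hv, set3 M₀ M₀', hG2 M]
      push_cast
      ring
    · intro hd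
      rw [Set.eq_empty_iff_forall_notMem]
      intro z hz
      rw [jetE_iff] at hz
      obtain ⟨c, hc, h⟩ := hz
      rw [hpe, hye, jetC_sum] at h
      apply hd
      apply Nat.lcm_dvd
      · by_contra h1
        have h2 := (hN N hNpos).2 h1
        have h3 : (fun q : σ × Fin (N + 1) => z (Sum.inl q.1, q.2)) ∈ JetE g (aP p) (aP y) N :=
          (jetE_iff _ _ _ _ _).2 ⟨c, hc, h.1⟩
        rw [h2] at h3
        exact h3
      · by_contra h1
        have h2 := (hN' N hNpos).2 h1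
        have h3 : (fun q : τ × Fin (N + 1) => z (Sum.inr q.1, q.2)) ∈
            JetE g' (aP p') (aP y') N := (jetE_iff _ _ _ _ _).2 ⟨c, hc, h.2⟩
        rw [h2] at h3
        exact h3

end Pool.Agent.D0H16.TS
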