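import Pool.Agent.D0H67.TS.Stm

/-! # Module WSUM: the order of a sum of ideals in disjoint variables is the minimum -/

set_option autoImplicit false
set_option linter.unusedSectionVars false

namespace Pool.Agent.D0H16.TS.W

open MvPolynomial Pool.Agent.W428.MOT Pool.Agent.TH192.MT
  Pool.Agent.D0H67.SUB Pool.Agent.D0H67.TS

section

variable {K : Type} [Field K] {σ τ J J' : Type}

theorem relabel {ι κ : Type} [Fintype ι] [Fintype κ] (e : ι ≃ κ) {S : Set (Pt K κ)}
    (hS : Constr S) {R : Type} [CommRing R] (M : Meas K R) :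
    M.χ ι {x : Pt K ι | (fun q => x (e.symm q)) ∈ S} = M.χ κ S := by
  have h1 : Constr {x : Pt K ι | (fun q => x (e.symm q)) ∈ S} :=
    hS.preimage (fun x : Pt K ι => fun q => x (e.symm q)) fun q => IsPF.coord _
  refine M.iso _ _ h1 hS (fun x q => x (e.symm q)) (fun x q => x (e q))
    (regularOn_poly (fun q => IsPF.coord _) _) (regularOn_poly (fun q => IsPF.coord _) _)
    (fun x hx => hx) ?_ ?_ ?_
  · intro x hx
    have h2 : (fun q => x (e (e.symm q))) = x := by
      funext q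
      rw [e.apply_symm_apply]
    change (fun q => x (e (e.symm q))) ∈ S
    rw [h2]
    exact hx
  · intro x _
    funext q
    change x (e.symm (e q)) = x q
    rw [e.symm_apply_apply]
  · intro x _
    funext q
    change x (e (e.symm q)) = x q
    rw [e.apply_symm_apply]

theorem aeval_inl {N : ℕ} (z : Pt K ((σ ⊕ τ) × Fin (N + 1))) (f : MvPolynomial σ K) :
    aeval (ar z) (rename Sum.inl f) =
      aeval (ar (fun q : σ × Fin (N + 1) => z (Sum.inl q.1, q.2))) f := by
  rw [aeval_rename]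
  rfl

theorem aeval_inr {N : ℕ} (z : Pt K ((σ ⊕ τ) × Fin (N + 1))) (f : MvPolynomial τ K) :
    aeval (ar z) (rename Sum.inr f) =
      aeval (ar (fun q : τ × Fin (N + 1) => z (Sum.inr q.1, q.2))) f := by
  rw [aeval_rename]
  rfl

/-- the relabelling -/
def e (σ τ : Type) (N : ℕ) : (σ ⊕ τ) × Fin (N + 1) ≃ (σ × Fin (N + 1)) ⊕ (τ × Fin (N + 1)) where
  toFun
    | (Sum.inl i, k) => Sum.inl (i, k)
    | (Sum.inr i, k) => Sum.inr (i, k)
  invFun
    | Sum.inl q => (Sum.inl q.1, q.2)
    | Sum.inr q => (Sum.inr q.1, q.2)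
  left_inv := by rintro ⟨i | i, k⟩ <;> rfl
  right_inv := by rintro (⟨i, k⟩ | ⟨i, k⟩) <;> rfl

theorem jetW_sum (g : J → MvPolynomial σ K) (g' : J' → MvPolynomial τ K) (N : ℕ) :
    JetW (sumG g g') {0} N = {z : Pt K ((σ ⊕ τ) × Fin (N + 1)) |
      (fun q => z ((e σ τ N).symm q)) ∈
        {w : Pt K ((σ × Fin (N + 1)) ⊕ (τ × Fin (N + 1))) |
          (fun q => w (Sum.inl q)) ∈ JetW g {0} N ∧ (fun q => w (Sum.inr q)) ∈ JetW g' {0} N}} := by
  ext z
  constructor
  · rintro ⟨h1, h2⟩
    have h1' : (fun i => z (i, 0)) = 0 := h1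
    refine ⟨⟨?_, fun j k hk => ?_⟩, ⟨?_, fun j k hk => ?_⟩⟩
    · change (fun i => z (Sum.inl i, 0)) = 0
      funext i
      exact congrFun h1' (Sum.inl i)
    · have := h2 (Sum.inl j) k hk
      change PowerSeries.coeff k (aeval (ar z) (rename Sum.inl (g j))) = 0 at this
      rw [aeval_inl] at this
      exact this
    · change (fun i => z (Sum.inr i, 0)) = 0
      funext i
      exact congrFun h1' (Sum.inr i)
    · have := h2 (Sum.inr j) k hk
      change PowerSeries.coeff k (aeval (ar z) (rename Sum.inr (g' j))) = 0 at this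
      rw [aeval_inr] at this
      exact this
  · rintro ⟨⟨h1, h2⟩, ⟨h1', h2'⟩⟩
    have h3 : (fun i => z (Sum.inl i, 0)) = 0 := h1
    have h3' : (fun i => z (Sum.inr i, 0)) = 0 := h1'
    refine ⟨?_, ?_⟩
    · change (fun i => z (i, 0)) = 0
      funext i
      rcases i with i | i
      · exact congrFun h3 i
      · exact congrFun h3' i
    · rintro (j | j) k hk
      · change PowerSeries.coeff k (aeval (ar z) (rename Sum.inl (g j))) = 0
        rw [aeval_inl]
        exact h2 j k hk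
      · change PowerSeries.coeff k (aeval (ar z) (rename Sum.inr (g' j))) = 0
        rw [aeval_inr]
        exact h2' j k hk

end

theorem constr_zero {K : Type} [Field K] {σ : Type} [Finite σ] : Constr ({0} : Set (Pt K σ)) := by
  have h1 : ({0} : Set (Pt K σ)) = {x | ∀ i, x i = 0} := by
    ext x
    rw [Set.mem_singleton_iff, funext_iff]
    rfl
  rw [h1]
  exact Constr.all fun i => Constr.eq (IsPF.coord i) IsPF.zero

end Pool.Agent.D0H16.TS.W

namespace Pool.Agent.D0H16.TS

open MvPolynomial Pool.Agent.W428.MOT Pool.Agent.TH192.MT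
  Pool.Agent.D0H67.SUB Pool.Agent.D0H67.TS

/-- WSUM -/
theorem t_WSUM : S_WREL → S_WSUM := by
  intro hW K _ σ τ J J' _ _ _ _ g g' R _ M v hv
  ext N
  rw [PowerSeries.coeff_mk]
  obtain ⟨_, h1⟩ := hW (sumG g g') M v hv {0} W.constr_zero N
  obtain ⟨hc2, h2⟩ := hW g M v hv {0} W.constr_zero N
  obtain ⟨hc3, h3⟩ := hW g' M v hv {0} W.constr_zero N
  rw [h1, h2, h3, W.jetW_sum]
  have hcc : Constr {w : Pt K ((σ × Fin (N + 1)) ⊕ (τ × Fin (N + 1))) |
      (fun q => w (Sum.inl q)) ∈ JetW g {0} N ∧ (fun q => w (Sum.inr q)) ∈ JetW g' {0} N} :=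
    Constr.and
      (hc2.preimage (fun w : Pt K ((σ × Fin (N + 1)) ⊕ (τ × Fin (N + 1))) => fun q => w (Sum.inl q))
        fun q => IsPF.coord _)
      (hc3.preimage (fun w : Pt K ((σ × Fin (N + 1)) ⊕ (τ × Fin (N + 1))) => fun q => w (Sum.inr q))
        fun q => IsPF.coord _)
  rw [W.relabel (W.e σ τ N) hcc M, M.prod _ _ hc2 hc3, Fintype.card_sum, add_mul, pow_add]
  ring

end Pool.Agent.D0H16.TS
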